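import Pool.Agent.H699.T.Dec

/-!
# Farthest first traversal and estimated distances
-/

set_option autoImplicit false

namespace Pool.Agent.H687.T.NET

open Finset Classical
open Pool.Agent.H699.T

variable {n : ℕ}

theorem dS_le {d : Fin n → Fin n → ℝ} {S : Finset (Fin n)} {x : Fin n} (hx : x ∈ S) (y : Fin n) :
    dS d S y ≤ d x y := by
  have hS : S.Nonempty := ⟨x, hx⟩
  unfold dS
  rw [dif_pos hS]
  exact Finset.inf'_le (fun x => d x y) hx

theorem exists_dS {d : Fin n → Fin n → ℝ} {S : Finset (Fin n)} (hS : S.Nonempty) (y : Fin n) :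
    ∃ x ∈ S, dS d S y = d x y := by
  unfold dS
  rw [dif_pos hS]
  obtain ⟨x, hx, h⟩ := Finset.exists_mem_eq_inf' hS (fun x => d x y)
  exact ⟨x, hx, h⟩

theorem dS_anti {d : Fin n → Fin n → ℝ} {S T : Finset (Fin n)} (hS : S.Nonempty) (hST : S ⊆ T)
    (y : Fin n) : dS d T y ≤ dS d S y := by
  obtain ⟨x, hx, h⟩ := exists_dS (d := d) hS y
  rw [h]
  exact dS_le (hST hx) y

variable [NeZero n]

theorem far_spec (d : Fin n → Fin n → ℝ) (S : Finset (Fin n)) (y' : Fin n) :
    dS d S y' ≤ dS d S (far d S) := by
  have h : ∃ y, ∀ y', dS d S y' ≤ dS d S y := by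
    obtain ⟨y, _, hy⟩ := Finset.exists_max_image (univ : Finset (Fin n)) (fun y => dS d S y)
      ⟨0, mem_univ _⟩
    exact ⟨y, fun y' => hy y' (mem_univ _)⟩
  unfold far
  rw [dif_pos h]
  exact Classical.choose_spec h y'

theorem net_succ (d : Fin n → Fin n → ℝ) (i : ℕ) :
    net d (i + 1) = insert (far d (net d i)) (net d i) := rfl

theorem net_nonempty (d : Fin n → Fin n → ℝ) {i : ℕ} (hi : 1 ≤ i) : (net d i).Nonempty := by
  obtain ⟨j, rfl⟩ : ∃ j, i = j + 1 := ⟨i - 1, by omega⟩
  rw [net_succ]
  exact ⟨_, mem_insert_self _ _⟩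

omit [NeZero n] in
theorem dS_pos {d : Fin n → Fin n → ℝ} (hd : RMet d) {S : Finset (Fin n)} (hS : S.Nonempty)
    {y : Fin n} (hy : y ∉ S) : 0 < dS d S y := by
  obtain ⟨x, hx, h⟩ := exists_dS (d := d) hS y
  rw [h]
  exact hd.pos x y (fun e => hy (e ▸ hx))

theorem far_notMem {d : Fin n → Fin n → ℝ} (hd : RMet d) {S : Finset (Fin n)}
    (hc : S.card < n) : far d S ∉ S ∧ (S.Nonempty → 0 < dS d S (far d S)) := by
  rcases S.eq_empty_or_nonempty with rfl | hS
  · exact ⟨by simp, fun h => absurd h (by simp)⟩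
  · have hne : ∃ y, y ∉ S := by
      by_contra hcon
      push Not at hcon
      have : S = univ := eq_univ_iff_forall.2 hcon
      rw [this] at hc
      simp at hc
    obtain ⟨y, hy⟩ := hne
    have h1 : 0 < dS d S (far d S) := lt_of_lt_of_le (dS_pos hd hS hy) (far_spec d S y)
    refine ⟨fun hf => ?_, fun _ => h1⟩
    have h2 := dS_le (d := d) hf (far d S)
    rw [hd.met.self] at h2
    linarith

theorem card_net {d : Fin n → Fin n → ℝ} (hd : RMet d) : ∀ i : ℕ, i ≤ n → (net d i).card = i := by
  intro i
  induction i with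
  | zero => intro _; rfl
  | succ i ih =>
    intro hi
    have h := ih (by omega)
    rw [net_succ, card_insert_of_notMem (far_notMem hd (by rw [h]; omega)).1, h]

theorem rad_pos {d : Fin n → Fin n → ℝ} (hd : RMet d) {m : ℕ} (h1 : 1 ≤ m) (h2 : m < n) :
    0 < rad d m :=
  (far_notMem hd (by rw [card_net hd m h2.le]; exact h2)).2 (net_nonempty d h1)

theorem cover (d : Fin n → Fin n → ℝ) {m : ℕ} (h1 : 1 ≤ m) (y : Fin n) :
    ∃ x ∈ net d m, d x y ≤ rad d m := by
  obtain ⟨x, hx, h⟩ := exists_dS (d := d) (net_nonempty d h1) y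
  exact ⟨x, hx, h ▸ far_spec d (net d m) y⟩

theorem rad_succ (d : Fin n → Fin n → ℝ) {m : ℕ} (h1 : 1 ≤ m) : rad d (m + 1) ≤ rad d m := by
  unfold rad
  refine le_trans (dS_anti (net_nonempty d h1) ?_ _) (far_spec d (net d m) _)
  rw [net_succ]
  exact subset_insert _ _

theorem sep {d : Fin n → Fin n → ℝ} (hd : RMet d) : ∀ m : ℕ, ∀ x ∈ net d m, ∀ y ∈ net d m,
    x ≠ y → rad d m ≤ d x y := by
  intro m
  induction m with
  | zero => intro x hx; exact absurd hx (notMem_empty x)
  | succ m ih =>
    intro x hx y hy hxy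
    rcases Nat.eq_zero_or_pos m with rfl | hm
    · rw [net_succ, mem_insert] at hx hy
      rcases hx with hx | hx
      · rcases hy with hy | hy
        · exact absurd (hx.trans hy.symm) hxy
        · exact absurd hy (notMem_empty _)
      · exact absurd hx (notMem_empty _)
    · have hr := rad_succ d hm
      have key : ∀ z ∈ net d m, rad d m ≤ d z (far d (net d m)) := fun z hz => by
        unfold rad
        exact dS_le hz _
      rw [net_succ, mem_insert] at hx hy
      rcases hx with hx | hx
      · rcases hy with hy | hy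
        · exact absurd (hx.trans hy.symm) hxy
        · rw [hx, hd.met.symm]
          exact le_trans hr (key y hy)
      · rcases hy with hy | hy
        · rw [hy]
          exact le_trans hr (key x hx)
        · exact le_trans hr (ih x hx y hy hxy)

theorem walk_ge {α : Type} {d : α → α → ℝ} {r : ℝ} :
    ∀ L : List α, L.IsChain (fun x y => r ≤ d x y) → L ≠ [] →
      ((L.length : ℝ) - 1) * r ≤ walk d L
  | [], _, h => absurd rfl h
  | [a], _, _ => by simp [walk]
  | a :: b :: l, hc, _ => by
    rw [List.isChain_cons_cons] at hc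
    have ih := walk_ge (b :: l) hc.2 (by simp)
    have h1 := hc.1
    simp only [walk, List.length_cons, Nat.cast_add, Nat.cast_one] at ih ⊢
    nlinarith

theorem cyc_ge {α : Type} {d : α → α → ℝ} {r : ℝ} (l : List α) (hn : l.Nodup)
    (h2 : 2 ≤ l.length) (h : ∀ x ∈ l, ∀ y ∈ l, x ≠ y → r ≤ d x y) :
    (l.length : ℝ) * r ≤ cyc d l := by
  match l, hn, h2, h with
  | [], _, h2, _ => simp at h2
  | [a], _, h2, _ => simp at h2
  | a :: b :: t, hn, _, h =>
    have hc : (a :: ((b :: t) ++ [a])).IsChain (fun x y => r ≤ d x y) := by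
      have e : a :: ((b :: t) ++ [a]) = (a :: b :: t) ++ [a] := rfl
      rw [e, List.isChain_append]
      refine ⟨?_, by simp, ?_⟩
      · apply List.Pairwise.isChain
        have hp : (a :: b :: t).Pairwise (fun x y => x ≠ y) := hn
        exact List.Pairwise.imp_of_mem (fun {x y} hx hy hxy => h x hx y hy hxy) hp
      · intro x hx y hy
        have hy' : y = a := by simpa using hy.symm
        have hx' : x ∈ b :: t := by
          rw [List.getLast?_cons_cons] at hx
          exact List.mem_of_mem_getLast? hx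
        rw [hy']
        apply h x (List.mem_cons_of_mem _ hx') a (by simp)
        intro hxa
        rw [hxa] at hx'
        rw [List.nodup_cons] at hn
        exact hn.1 hx'
    have hw := walk_ge _ hc (by simp)
    unfold cyc
    have hl : ((a :: ((b :: t) ++ [a])).length : ℝ) - 1 = ((a :: b :: t).length : ℝ) := by
      simp
    rw [hl] at hw
    exact hw

theorem mem_tf {α : Type} {inst : DecidableEq α} {l : List α} {S : Finset α}
    (h : @List.toFinset α inst l = S) (x : α) : x ∈ l ↔ x ∈ S := by
  subst h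
  exact List.mem_toFinset.symm

theorem card_tf {α : Type} {inst : DecidableEq α} {l : List α} {S : Finset α}
    (h : @List.toFinset α inst l = S) (hn : l.Nodup) : l.length = S.card := by
  subst h
  exact (List.toFinset_card_of_nodup hn).symm

theorem t_NET : S_TSPLE → S_TSPATT → S_NET := by
  intro hle hatt n _ d hd m h2 hm
  have hcard := card_net hd m hm.le
  refine ⟨hcard, rad_pos hd (by omega) hm, cover d (by omega), sep hd m, ?_⟩
  obtain ⟨l, _, hl, hlc⟩ := hatt (Fin n) d hd.met univ
  obtain ⟨l', hn', hl', hlc'⟩ := hatt (Fin n) d hd.met (net d m)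
  have hml : ∀ x, x ∈ l := fun x => (mem_tf hl x).2 (mem_univ x)
  have hml' : ∀ x ∈ l', x ∈ net d m := fun x hx => (mem_tf hl' x).1 hx
  have h1 : tsp d (net d m) ≤ cyc d l := hle (Fin n) d hd.met (net d m) l (fun x _ => hml x)
  have hlen : l'.length = m := (card_tf hl' hn').trans hcard
  have h3 := cyc_ge (d := d) (r := rad d m) l' hn' (by omega) (fun x hx y hy hxy =>
    sep hd m x (hml' x hx) y (hml' y hy) hxy)
  rw [hlen, hlc'] at h3
  rw [← hlc]
  exact h3.trans h1

theorem dh_le {d : Fin n → Fin n → ℝ} {m : ℕ} {z : Fin n} (hz : z ∈ net d m) (x y : Fin n) :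
    dh d m x y ≤ d z x + d z y := by
  have h : (net d m).Nonempty := ⟨z, hz⟩
  unfold dh
  rw [dif_pos h]
  exact Finset.inf'_le (fun z => d z x + d z y) hz

theorem exists_dh {d : Fin n → Fin n → ℝ} {m : ℕ} (h1 : 1 ≤ m) (x y : Fin n) :
    ∃ z ∈ net d m, dh d m x y = d z x + d z y := by
  unfold dh
  rw [dif_pos (net_nonempty d h1)]
  obtain ⟨z, hz, h⟩ := Finset.exists_mem_eq_inf' (net_nonempty d h1) (fun z => d z x + d z y)
  exact ⟨z, hz, h⟩

theorem dh_symm (d : Fin n → Fin n → ℝ) (m : ℕ) (x y : Fin n) : dh d m x y = dh d m y x := by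
  unfold dh
  have e : (fun z => d z x + d z y) = (fun z => d z y + d z x) := by
    funext z; ring
  rw [e]

theorem t_D1 : S_NET → S_D1 := by
  intro hnet n _ d hd m K0 θ h2 hm hK hθ
  have hrad : 0 < rad d m := rad_pos hd (by omega) hm
  have h1m : 1 ≤ m := by omega
  have hlow : ∀ x y, d x y ≤ dh d m x y := by
    intro x y
    obtain ⟨z, _, h⟩ := exists_dh (d := d) h1m x y
    rw [h, hd.met.symm z x]
    exact hd.met.tri x z y
  have hup : ∀ x y, dh d m x y ≤ d x y + 2 * rad d m := by
    intro x y
    obtain ⟨z, hz, hzx⟩ := cover d h1m x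
    have h1 := dh_le hz x y
    have h3 := hd.met.tri z x y
    linarith
  have hcenex : ∃ C, IsCen d m K0 θ C := by
    have hne : ((univ : Finset (Finset (Fin n))).filter fun C =>
        (∀ c ∈ C, Dense d m K0 θ c) ∧
        (∀ c ∈ C, ∀ c' ∈ C, c ≠ c' → (2 * K0 + 2) * rad d m < dh d m c c')).Nonempty := by
      refine ⟨∅, ?_⟩
      simp
    obtain ⟨C, hC, hmax⟩ := Finset.exists_max_image _ (fun C => C.card) hne
    rw [mem_filter] at hC
    obtain ⟨_, hC1, hC2⟩ := hC
    refine ⟨C, hC1, hC2, ?_⟩
    intro v hv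
    by_contra hcon
    push Not at hcon
    have hvC : v ∉ C := by
      intro hvC
      have h3 := hcon v hvC
      have h4 := hup v v
      rw [hd.met.self] at h4
      nlinarith
    have hin : insert v C ∈ ((univ : Finset (Finset (Fin n))).filter fun C =>
        (∀ c ∈ C, Dense d m K0 θ c) ∧
        (∀ c ∈ C, ∀ c' ∈ C, c ≠ c' → (2 * K0 + 2) * rad d m < dh d m c c')) := by
      rw [mem_filter]
      refine ⟨mem_univ _, ?_, ?_⟩
      · intro c hc
        rcases mem_insert.1 hc with rfl | hc
        · exact hv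
        · exact hC1 c hc
      · intro c hc c' hc' hne'
        rcases mem_insert.1 hc with e | hc
        · rcases mem_insert.1 hc' with e' | hc'
          · exact absurd (e.trans e'.symm) hne'
          · rw [e, dh_symm]
            exact hcon c' hc'
        · rcases mem_insert.1 hc' with e' | hc'
          · rw [e']
            exact hcon c hc
          · exact hC2 c hc c' hc' hne'
    have h5 := hmax _ hin
    rw [card_insert_of_notMem hvC] at h5
    omega
  have hcen : IsCen d m K0 θ (cen d m K0 θ) := by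
    unfold cen
    rw [dif_pos hcenex]
    exact Classical.choose_spec hcenex
  have hnonneg : ∀ x y, 0 ≤ d x y := by
    intro x y
    have h3 := hd.met.tri x y x
    rw [hd.met.self, hd.met.symm y x] at h3
    linarith
  have hK0 : 0 < K0 := by linarith
  refine ⟨fun x y => ⟨hlow x y, hup x y, dh_symm d m x y⟩, ?_, ?_, hcen, ?_, ?_⟩
  · intro x y
    unfold dt
    split_ifs
    · exact le_rfl
    · exact le_rfl
    · exact hlow x y
  · intro x y hxy
    have hb : d x y ≤ (1 + 4 / K0) * d x y := by
      have : 0 ≤ 4 / K0 := by positivity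
      nlinarith [hnonneg x y]
    unfold dt
    split_ifs with ha hb'
    · exact hb
    · exact hb
    · push Not at ha
      have hnd : ¬ Dense d m K0 θ x ∨ ¬ Dense d m K0 θ y := by
        rcases hxy with h | h
        · rcases h with h | h
          · exact absurd h ha.1
          · exact Or.inl h
        · rcases h with h | h
          · exact absurd h ha.2
          · exact Or.inr h
      have hbig : K0 * rad d m < dh d m x y := by
        by_contra hcon
        exact hb' ⟨hnd, not_lt.1 hcon⟩
      have h3 := hup x y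
      have h4 : (K0 - 2) * rad d m ≤ d x y := by nlinarith
      have h5 : 2 * rad d m ≤ 4 / K0 * d x y := by
        rw [div_mul_eq_mul_div, le_div_iff₀ hK0]
        nlinarith
      linarith
  · have hdisj : ∀ c ∈ cen d m K0 θ, ∀ c' ∈ cen d m K0 θ, c ≠ c' →
        Disjoint (univ.filter fun y => dh d m c y ≤ K0 * rad d m)
          (univ.filter fun y => dh d m c' y ≤ K0 * rad d m) := by
      intro c hc c' hc' hne
      rw [Finset.disjoint_left]
      intro y hy hy'
      rw [mem_filter] at hy hy'
      have h3 := hcen.2.1 c hc c' hc' hne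
      have h4 := hup c c'
      have h5 := hd.met.tri c y c'
      have h6 := hlow c y
      have h7 := hlow c' y
      rw [hd.met.symm c' y] at h7
      have h8 := hy.2
      have h9 := hy'.2
      nlinarith
    have hsum : ∑ c ∈ cen d m K0 θ, (univ.filter fun y => dh d m c y ≤ K0 * rad d m).card ≤ n := by
      rw [← Finset.card_biUnion hdisj]
      refine (Finset.card_le_univ _).trans ?_
      simp
    have hsum2 : (cen d m K0 θ).card * (θ * n) ≤
        ∑ c ∈ cen d m K0 θ, ((univ.filter fun y => dh d m c y ≤ K0 * rad d m).card : ℝ) := by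
      rw [← nsmul_eq_mul]
      refine Finset.card_nsmul_le_sum _ _ _ ?_
      intro c hc
      exact le_of_lt (hcen.1 c hc)
    have hsum' : (∑ c ∈ cen d m K0 θ,
        ((univ.filter fun y => dh d m c y ≤ K0 * rad d m).card : ℝ)) ≤ n := by
      exact_mod_cast hsum
    have hn : (0 : ℝ) < n := by
      exact_mod_cast Nat.pos_of_ne_zero (NeZero.ne n)
    have h3 : ((cen d m K0 θ).card * θ) * n ≤ 1 * n := by linarith
    exact le_of_mul_le_mul_right h3 hn
  · intro v hv
    obtain ⟨c, hc, h⟩ := hcen.2.2 v hv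
    exact ⟨c, hc, (hlow c v).trans h⟩

end Pool.Agent.H687.T.NET
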