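import Pool.Agent.H699.T.Unit

/-!
# Expected numbers of exceptional units and of candidate pairs
-/

set_option autoImplicit false

namespace Pool.Agent.H687.T.P2BC

open Finset Classical
open Pool.Agent.H699.T

/-- The card of `Y` if `Y` is avoided by `R`. -/
noncomputable def av {N : ℕ} (Y R : Finset (Fin N)) : ℝ :=
  if (∀ u ∈ Y, u ∉ R) then (Y.card : ℝ) else 0

theorem av_nonneg {N : ℕ} (Y R : Finset (Fin N)) : 0 ≤ av Y R := by
  unfold av
  split_ifs
  · positivity
  · exact le_rfl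

theorem av_eq {N : ℕ} {Y R : Finset (Fin N)} (h : ∀ u ∈ Y, u ∉ R) : av Y R = Y.card := by
  unfold av
  rw [if_pos h]

theorem ex_av (hm : S_MISS) (N t : ℕ) (ht : 1 ≤ t) (Y : Finset (Fin N)) :
    ex (fun ω : Fin N → Fin t => av Y (zs ω)) ≤ t := by
  have h := hm N t ht Y
  unfold av
  exact h

theorem t_2C : S_EXBASIC → S_MISS → S_CAPS → S_2C := by
  intro hex hm hcap N Kp b d c hb _
  obtain ⟨e1, e2, e3, e4, e5, e6, e7, e8, e9, e10, e11, e12⟩ := hex
  obtain ⟨-, hc2⟩ := hcap N Kp d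
  let XY : Fin N → ℕ → Finset (Fin N) := fun y u =>
    univ.filter fun x => c x ≠ 0 ∧ 3 * d x y < 2 * ((c x - 1) + u)
  have hpt : ∀ ω : Fin N → Fin b, ∑ y, ((Cd d c (c2 Kp d (zs ω) c) y).card : ℝ) ≤
      ∑ y, ∑ u ∈ range (Kp + 1), av (XY y u) (zs ω) := by
    intro ω
    refine Finset.sum_le_sum fun y _ => ?_
    by_cases h0 : c2 Kp d (zs ω) c y = 0
    · have h1 : Cd d c (c2 Kp d (zs ω) c) y = ∅ := by
        unfold Cd
        rw [Finset.filter_eq_empty_iff]
        intro x _ hx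
        exact hx.2.1 h0
      rw [h1]
      simp only [card_empty, Nat.cast_zero]
      exact Finset.sum_nonneg fun u _ => av_nonneg _ _
    · obtain ⟨hle, hiff⟩ := hc2 (zs ω) c y
      set u := c2 Kp d (zs ω) c y - 1 with hu
      have huK : u ≤ Kp := by omega
      have h1 : Cd d c (c2 Kp d (zs ω) c) y ⊆ XY y u := by
        intro x hx
        unfold Cd at hx
        rw [mem_filter] at hx
        exact mem_filter.2 ⟨mem_univ _, hx.2.1, hx.2.2.2⟩
      have h2 : ∀ x ∈ XY y u, x ∉ zs ω := by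
        intro x hx hxz
        rw [mem_filter] at hx
        have h3 := (hiff u huK).1 (by omega) x hxz hx.2.1
        have h4 := hx.2.2
        omega
      have h3 : ((Cd d c (c2 Kp d (zs ω) c) y).card : ℝ) ≤ av (XY y u) (zs ω) := by
        rw [av_eq h2]
        exact_mod_cast card_le_card h1
      refine h3.trans ?_
      exact Finset.single_le_sum (f := fun u => av (XY y u) (zs ω))
        (fun u _ => av_nonneg _ _) (mem_range.2 (by omega))
  refine (e1 _ _ _ hpt).trans ?_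
  rw [e5]
  calc ∑ y : Fin N, ex (fun ω : Fin N → Fin b => ∑ u ∈ range (Kp + 1), av (XY y u) (zs ω))
      ≤ ∑ y : Fin N, ∑ u ∈ range (Kp + 1), (b : ℝ) := by
        refine Finset.sum_le_sum fun y _ => ?_
        rw [e5]
        exact Finset.sum_le_sum fun u _ => ex_av hm N b hb _
    _ = N * (Kp + 1) * b := by
        simp only [sum_const, card_univ, Fintype.card_fin, card_range, nsmul_eq_mul]
        push_cast
        ring

theorem t_2B : S_EXBASIC → S_EXSUM → S_MISS → S_CAPS → S_2B := by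
  intro hex hsum hm hcap N s k M Kp t b hok ht hb A Z
  obtain ⟨e1, e2, e3, e4, e5, e6, e7, e8, e9, e10, e11, e12⟩ := hex
  obtain ⟨hc1, -⟩ := hcap N Kp s.d
  let Yl : Fin N → ℕ → Finset (Fin N) := fun x u =>
    A.filter fun l => ∃ y ∈ s.un l, 3 * s.d x y < 2 * (u + s.pt Z y)
  let Gf : (Fin N → Fin t) → Fin N → ℝ := fun ω1 x =>
    ∑ u ∈ range (Kp + 1), av (Yl x u) (zs ω1)
  have hpt : ∀ ω : (Fin N → Fin t) × (Fin N → Fin b),
      ((A.filter fun l => s.exc Z (zs ω.2) (c1 Kp s.d (s.hA A (zs ω.1) Z)) l).card : ℝ) ≤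
      ∑ x ∈ zs ω.2, Gf ω.1 x := by
    intro ω
    have hsub : (A.filter fun l => s.exc Z (zs ω.2) (c1 Kp s.d (s.hA A (zs ω.1) Z)) l) ⊆
        ((zs ω.2).filter fun x => c1 Kp s.d (s.hA A (zs ω.1) Z) x ≠ 0).biUnion
          fun x => Yl x (c1 Kp s.d (s.hA A (zs ω.1) Z) x - 1) := by
      intro l hl
      rw [mem_filter] at hl
      obtain ⟨hlA, x, hx, hcx, y, hy, hlt⟩ := hl
      rw [mem_biUnion]
      exact ⟨x, mem_filter.2 ⟨hx, hcx⟩, mem_filter.2 ⟨hlA, y, hy, hlt⟩⟩
    have h1 : ((A.filter fun l => s.exc Z (zs ω.2) (c1 Kp s.d (s.hA A (zs ω.1) Z)) l).card : ℝ) ≤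
        ∑ x ∈ (zs ω.2).filter fun x => c1 Kp s.d (s.hA A (zs ω.1) Z) x ≠ 0,
          ((Yl x (c1 Kp s.d (s.hA A (zs ω.1) Z) x - 1)).card : ℝ) := by
      exact_mod_cast (card_le_card hsub).trans card_biUnion_le
    refine h1.trans ?_
    have h2 : ∑ x ∈ (zs ω.2).filter fun x => c1 Kp s.d (s.hA A (zs ω.1) Z) x ≠ 0,
          ((Yl x (c1 Kp s.d (s.hA A (zs ω.1) Z) x - 1)).card : ℝ) ≤
        ∑ x ∈ (zs ω.2).filter fun x => c1 Kp s.d (s.hA A (zs ω.1) Z) x ≠ 0, Gf ω.1 x := by
      refine Finset.sum_le_sum fun x hx => ?_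
      rw [mem_filter] at hx
      obtain ⟨hle, hiff⟩ := hc1 (s.hA A (zs ω.1) Z) x
      have hx2 := hx.2
      set u := c1 Kp s.d (s.hA A (zs ω.1) Z) x - 1 with hu
      have huK : u ≤ Kp := by omega
      have h3 : ∀ l ∈ Yl x u, l ∉ zs ω.1 := by
        intro l hl hlz
        rw [mem_filter] at hl
        obtain ⟨hlA, y, hy, hlt⟩ := hl
        unfold US.un at hy
        rw [mem_filter] at hy
        have hh : s.hA A (zs ω.1) Z y = s.pt Z y + 1 := by
          unfold US.hA
          rw [if_pos]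
          rw [hy.2]
          exact ⟨hy.1, hlA, hlz⟩
        have h4 := (hiff u huK).1 (by omega) y (by rw [hh]; omega)
        rw [hh, hok.symm y x] at h4
        omega
      rw [← av_eq h3]
      exact Finset.single_le_sum (f := fun u => av (Yl x u) (zs ω.1))
        (fun u _ => av_nonneg _ _) (mem_range.2 (by omega))
    refine h2.trans ?_
    refine Finset.sum_le_sum_of_subset_of_nonneg (filter_subset _ _) ?_
    intro x _ _
    exact Finset.sum_nonneg fun u _ => av_nonneg _ _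
  refine (e1 _ _ _ hpt).trans ?_
  rw [e6]
  have h5 : (fun ω1 : Fin N → Fin t =>
      ex (fun ω2 : Fin N → Fin b => ∑ x ∈ zs (ω1, ω2).2, Gf (ω1, ω2).1 x)) =
      fun ω1 => (1 / (b : ℝ)) * ∑ x, Gf ω1 x := by
    funext ω1
    have h6 := hsum N b hb (Gf ω1)
    rw [div_mul_eq_mul_div, one_mul]
    exact h6
  rw [h5, e3, e5]
  have h7 : ∑ x : Fin N, ex (fun ω1 : Fin N → Fin t => Gf ω1 x) ≤ N * (Kp + 1) * t := by
    calc ∑ x : Fin N, ex (fun ω1 : Fin N → Fin t => Gf ω1 x)
        ≤ ∑ x : Fin N, ∑ u ∈ range (Kp + 1), (t : ℝ) := by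
          refine Finset.sum_le_sum fun x _ => ?_
          rw [e5]
          exact Finset.sum_le_sum fun u _ => ex_av hm N t ht _
      _ = N * (Kp + 1) * t := by
          simp only [sum_const, card_univ, Fintype.card_fin, card_range, nsmul_eq_mul]
          push_cast
          ring
  have hb0 : (0 : ℝ) < b := by exact_mod_cast hb
  rw [one_div, inv_mul_le_iff₀ hb0]
  rw [mul_div_cancel₀]
  · exact h7
  · exact hb0.ne'

end Pool.Agent.H687.T.P2BC
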